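import Pool.Agent.Helper82.SP.GoalsC
import Pool.Agent.Helper26.LU.Base

/-!
Project SP (MP_db6300_gt), packet HBM
-/

set_option autoImplicit false

namespace Pool.Agent.Helper95.SP

open Matrix Real
open Pool.Agent.Helper26.LU Pool.Agent.Helper82.SP

theorem goalHBM (hC : G_HBC) : G_HBM := by
  intro v a hT ⟨R₀, t₀, hR₀, h₀, hall⟩
  obtain ⟨ha, hv⟩ := hT
  obtain ⟨i, hi, -⟩ := hC v a ⟨ha, hv⟩ R₀ hR₀ t₀ h₀
  obtain ⟨j, hj⟩ : ∃ j : Fin 4, i ≠ j := by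
    by_cases h : i = 0
    · exact ⟨1, by rw [h]; decide⟩
    · exact ⟨0, h⟩
  have ha0 : a ≠ 0 := ha.ne'
  -- the rotation
  have hu : ((1 / a) • (v i - v j) : V) ∈ sph := by
    change ((1 / a) • (v i - v j)) ⬝ᵥ ((1 / a) • (v i - v j)) = 1
    rw [smul_dotProduct, dotProduct_smul, hv i j hj]
    simp only [smul_eq_mul]
    field_simp
  obtain ⟨Q, hQ, hQe⟩ := exists_rot hu
  have hR : Qᵀ ∈ SO3 := SO3_transpose hQ
  have hRa : (Qᵀ *ᵥ v i) 2 - (Qᵀ *ᵥ v j) 2 = a := by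
    have h1 : Qᵀ *ᵥ (v i - v j) = a • e 0 := by
      have h2 : v i - v j = a • (Q *ᵥ e 0) := by
        rw [hQe, smul_smul, mul_one_div_cancel ha0, one_smul]
      rw [h2, mulVec_smul, mulVec_mulVec, SO3_left hQ, one_mulVec]
    have h3 := congrFun h1 2
    rw [mulVec_sub] at h3
    simpa [e0] using h3
  obtain ⟨S, t, hS, ht, hS0, ht0, hS1, hp⟩ := hall Qᵀ hR
  let g : M3 × V → ℝ := fun x => (x.2 + x.1 *ᵥ v i) ⬝ᵥ (x.2 + x.1 *ᵥ v i)
  have hg : Continuous g := by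
    have h1 : Continuous fun x : M3 × V => x.2 + x.1 *ᵥ v i :=
      continuous_snd.add (continuous_fst.matrix_mulVec continuous_const)
    exact h1.dotProduct h1
  let f : ℝ → ℝ := fun s => g (S s, t s)
  have hf : ContinuousOn f (Set.Icc 0 1) := hg.comp_continuousOn (hS.prodMk ht)
  have hf2 : ∀ s ∈ Set.Icc (0 : ℝ) 1, f s = 0 ∨ f s = a ^ 2 := by
    intro s hs
    obtain ⟨hSs, hfr⟩ := hp s hs
    obtain ⟨k, hk, -⟩ := hC v a ⟨ha, hv⟩ (S s) hSs (t s) hfr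
    have h1 : t s + S s *ᵥ v i = S s *ᵥ (v i - v k) := by
      rw [hk, mulVec_sub]; abel
    change (t s + S s *ᵥ v i) ⬝ᵥ (t s + S s *ᵥ v i) = 0 ∨
      (t s + S s *ᵥ v i) ⬝ᵥ (t s + S s *ᵥ v i) = a ^ 2
    rw [h1, dot_mulVec hSs]
    by_cases hik : i = k
    · left
      rw [hik, sub_self, dotProduct_zero]
    · right
      exact hv i k hik
  have hf0 : f 0 = 0 := by
    change (t 0 + S 0 *ᵥ v i) ⬝ᵥ (t 0 + S 0 *ᵥ v i) = 0
    rw [hS0, ht0, hi, neg_add_cancel, dotProduct_zero]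
  have hf1 : f 1 = 0 := by
    rcases hf2 1 ⟨zero_le_one, le_rfl⟩ with h | h
    · exact h
    · exfalso
      have h1 := intermediate_value_Icc (zero_le_one (α := ℝ)) hf
      have ha2 : 0 < a ^ 2 := by positivity
      obtain ⟨s, hs, hs2⟩ := h1 (show a ^ 2 / 2 ∈ Set.Icc (f 0) (f 1) by
        rw [hf0, h]; constructor <;> linarith)
      rcases hf2 s hs with h3 | h3
      · rw [h3] at hs2; linarith
      · rw [h3] at hs2; linarith
  have ht1 : t 1 + Qᵀ *ᵥ v i = 0 := by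
    have h1 : (t 1 + S 1 *ᵥ v i) ⬝ᵥ (t 1 + S 1 *ᵥ v i) = 0 := hf1
    rw [hS1] at h1
    exact dotProduct_self_eq_zero.1 h1
  obtain ⟨hS1', hfr⟩ := hp 1 ⟨zero_le_one, le_rfl⟩
  rw [hS1] at hfr
  obtain ⟨k, hk, hmin⟩ := hC v a ⟨ha, hv⟩ Qᵀ hR (t 1) hfr
  have h5 : Qᵀ *ᵥ v i = Qᵀ *ᵥ v k := by
    rw [hk] at ht1
    exact (neg_add_eq_zero.1 ht1).symm
  have h6 := hmin j
  rw [← h5] at h6
  linarith

end Pool.Agent.Helper95.SP
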